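import Pool.Agent.NH33.Nw.Level
import Pool.Agent.NH33.Ir.Times
import Pool.Agent.Y103.Hk.Main2

/-!
# The Tate conjecture for generated varieties and their products with narrow varieties
-/

set_option autoImplicit false
set_option linter.unusedSectionVars false

open CategoryTheory AlgebraicGeometry NumberField Polynomial
open scoped TensorProduct

universe u v

namespace Pool.Agent.NH33.Ir

open Pool.Agent.H914 Pool.Agent.H914.VarClass Pool.Agent.H914.VarClass.Obj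
  Pool.Agent.H914.WeilCohomology Pool.Agent.H281R3.HT Pool.Agent.W552 Pool.Agent.W534
  Pool.Agent.W458.RK Pool.Agent.W458.MF Pool.Agent.TH132.A Pool.Agent.W536.RR
  Pool.Agent.TH121.KT Pool.Agent.Y103.Hk Pool.Agent.NH33.Nw

variable {k : Type u} [Field k] {𝒱 : VarClass k} {ops : CycleOps 𝒱}
  {W : WeilCohomology.{u, v} ops} {p : ℕ} [Fact p.Prime] {Φ : FrobSystem W p}
  {ι : Qb →+* PadicAlgCl p}
  {r : ℕ} {X : Fin r → 𝒱.Obj} {b e : Fin r → ℕ} {E : Fin r → Type} [∀ i, Field (E i)]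
  [∀ i, NumberField (E i)] [∀ i, IsCMField (E i)]
  {α : ∀ i, E i} {Z U : 𝒱.Obj}

/-- **The Tate conjecture for the products of `Z` with all varieties with eigenvalues which have no
relations with the conjugates of the numbers `α i`.** -/
theorem tateTimesQ_of [IsAlgClosed W.K] (hP : PairsAlg Φ X b e α) (he : ∀ i, 0 < e i)
    (hZ : IsGeneratedFrom Φ X b e α Z) {PP : ℕ → W.K → Prop}
    (hB : ∀ {N : ∀ i, (E i →+* W.K) → ℕ} {w : Fin r → ℕ} {W' d : ℕ} {ν : W.K} {x₀ : ℚ}, 0 < W' →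
      0 < d → (∀ i, w i * (e i * Φ.e (X i)) = W' * d) → PP d ν → ν ≠ 0 →
      (∏ i, ∏ σ : E i →+* W.K, (σ (α i)) ^ (w i * N i σ)) * ν ^ W' = (x₀ : W.K) →
      ∀ i σ, N i σ = N i (cj σ)) :
    TateTimesQ Φ PP Z := by
  classical
  intro s hs V _ _ _ G hG c a x hx
  have hp0 : (p : W.K) ≠ 0 := by exact_mod_cast (Fact.out : p.Prime).ne_zero
  have hpq : (p : ℚ) ≠ 0 := by exact_mod_cast (Fact.out : p.Prime).ne_zero
  have hQ : ∀ t, (card Φ Z t : W.K) ≠ 0 := fun t => card_ne Φ t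
  refine (tensor_killed (F := frob Φ Z s) (G := G) (card Φ Z s : W.K) (hQ s) c
    (fun i => cycSub W Z i) (fun i y hy => cyc_killed Φ hy) ?_ a x).1 hx
  intro μ ν N hN hν hrel
  refine le_trans ?_ algSpan_le_cyc
  intro y hy
  have hνM := hG ν hν
  have hν0 : ν ≠ 0 := by
    rintro rfl
    rw [mul_zero, zero_pow hN.ne'] at hrel
    exact pow_ne_zero _ (zpow_ne_zero _ (hQ s)) hrel.symm
  obtain ⟨t₀, ht₀, h0⟩ := span_good (span_words hZ y)
  have h1 := h0 s hs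
  obtain ⟨T, hTdef⟩ : ∃ T, T = t₀ * s := ⟨_, rfl⟩
  rw [← hTdef] at h1
  have hTs : T = s * t₀ := by rw [hTdef, mul_comm]
  have h2 : y ∈ Module.End.maxGenEigenspace (frob Φ Z T) (μ ^ t₀) := by
    rw [hTs, frob_mul_eq]
    exact gen_pow_of_gen hy _
  have heig : ∀ v ∈ GoodWords Φ X b e α Z T, ∃ (ω : W.K) (A : ℤ) (M : ℕ)
      (L : List (Lt Φ X b e α Z)) (C : W.H Z), frob Φ Z T v = ω • v ∧ 0 < M ∧
      C ∈ algSpan W Z ∧ v = wordVal L * C ∧
      ω ^ (2 * (∏ j, (e j * Φ.e (X j))) * M) = (card Φ Z T : W.K) ^ A *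
        ∏ i, ∏ σ : E i →+* W.K, (σ (α i)) ^ (expo Φ X e Z T M i * mult L i σ) := by
    rintro v ⟨L, j, M, c, hM, hc, hL, hcyc, rfl⟩
    obtain ⟨ω, A, h3, h4⟩ := word_eigen L hL
    refine ⟨ω * (card Φ Z T : W.K) ^ j, A + (j * (2 * (∏ j, (e j * Φ.e (X j))) * M) : ℕ), M, L,
      W.cl Z c, ?_, hM, cl_mem_algSpan hc, rfl, ?_⟩
    · rw [frob_mul_apply, h3, hcyc, smul_mul_smul_comm]
    · rw [mul_pow, h4, prod_letters, zpow_add₀ (hQ T), zpow_natCast, ← pow_mul]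
      ring
  have h3 := mem_span_gen (T := frob Φ Z T) (fun v hv => by
    obtain ⟨ω, _, _, _, _, h, _⟩ := heig v hv
    exact ⟨ω, eig_mem_gen h⟩) h1 h2
  refine (Submodule.span_le (p := algSpan W Z)).2 ?_ h3
  rintro v ⟨hv, hvμ⟩
  by_cases hv0 : v = 0
  · rw [hv0]
    exact Submodule.zero_mem _
  obtain ⟨ω, A, M, Lw, C, h4, hM, hC, hvL, h5⟩ := heig v hv
  have h6 : ω = μ ^ t₀ := eq_of_mem_gen (eig_mem_gen h4) hvμ hv0
  -- the relation
  let E' : ℕ := 2 * (∏ j, (e j * Φ.e (X j))) * M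
  have hE : 0 < E' := Nat.mul_pos (Nat.mul_pos two_pos (Finset.prod_pos fun j _ =>
    Nat.mul_pos (he j) (Φ.e_pos _))) hM
  let w : Fin r → ℕ := expo Φ X e Z T M
  let x₀ : ℚ := ((card Φ Z s : ℚ) ^ c) ^ (N * (t₀ * E')) * (((card Φ Z T : ℚ) ^ A) ^ N)⁻¹
  have h7 : (∏ i, ∏ σ : E i →+* W.K, (σ (α i)) ^ (N * w i * mult Lw i σ)) *
      ν ^ (N * (t₀ * E')) = (x₀ : W.K) := by
    have h8 : (μ * ν) ^ (N * (t₀ * E')) = ((card Φ Z s : W.K) ^ c) ^ (N * (t₀ * E')) := by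
      rw [pow_mul, hrel, ← pow_mul]
    have h9 : μ ^ (N * (t₀ * E')) = ((card Φ Z T : W.K) ^ A) ^ N *
        ∏ i, ∏ σ : E i →+* W.K, (σ (α i)) ^ (N * w i * mult Lw i σ) := by
      have h90 : ∏ i, ∏ σ : E i →+* W.K, (σ (α i)) ^ (N * w i * mult Lw i σ) =
          (∏ i, ∏ σ : E i →+* W.K, (σ (α i)) ^ (w i * mult Lw i σ)) ^ N := by
        rw [← Finset.prod_pow]
        refine Finset.prod_congr rfl fun i _ => ?_
        rw [← Finset.prod_pow]
        refine Finset.prod_congr rfl fun σ _ => ?_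
        rw [← pow_mul]
        congr 1
        ring
      rw [h90, ← mul_pow, ← h5, h6, ← pow_mul, ← pow_mul]
      congr 1
      simp only [E']
      ring
    rw [mul_pow, h9] at h8
    have h10 : (x₀ : W.K) = ((card Φ Z s : W.K) ^ c) ^ (N * (t₀ * E')) *
        (((card Φ Z T : W.K) ^ A) ^ N)⁻¹ := by
      simp only [x₀]
      push_cast
      rfl
    have h11 : ((card Φ Z T : W.K) ^ A) ^ N ≠ 0 := pow_ne_zero _ (zpow_ne_zero _ (hQ T))
    rw [h10, ← h8]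
    generalize ((card Φ Z T : W.K) ^ A) ^ N = B at h11
    field_simp
  have hbal := hB (N := mult Lw) (w := fun i => N * w i)
    (W' := N * (t₀ * E')) (d := Φ.e Z * s) (Nat.mul_pos hN (Nat.mul_pos ht₀ hE))
    (Nat.mul_pos (Φ.e_pos _) hs) (fun i => by
      simp only [w, expo, E']
      have h8 : (∏ j, (e j * Φ.e (X j))) = e i * Φ.e (X i) *
          ∏ j ∈ Finset.univ.erase i, (e j * Φ.e (X j)) :=
        (Finset.mul_prod_erase _ _ (Finset.mem_univ i)).symm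
      rw [h8, hTdef]
      ring) hνM hν0 h7
  rw [hvL]
  refine algSpan_mul (balanced_alg hP Lw.length Lw le_rfl ?_) hC
  rintro ⟨i, σ⟩
  have h12 := hbal i σ
  unfold mult at h12
  exact h12

end Pool.Agent.NH33.Ir
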