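import Pool.Agent.NH33.Sf.Comm

/-!
# Varieties with small slopes: the orthogonality argument
-/

set_option autoImplicit false
set_option linter.unusedSectionVars false

namespace Pool.Agent.NH33.Nw

open NumberField Polynomial Module Pool.Agent.TH121.KT Pool.Agent.Y103.Hk Pool.Agent.Y103.Sh
  Pool.Agent.NH33.Ir Pool.Agent.NH33.Sf

/-- the conjugates -/
abbrev Cj (ν : Qb) : Type := (minpoly ℚ ν).rootSet Qb

lemma isInt (ν : Qb) : IsIntegral ℚ ν := Algebra.IsIntegral.isIntegral ν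

lemma mem_cj {ν γ : Qb} : γ ∈ (minpoly ℚ ν).rootSet Qb ↔ ∃ g : GQ, g ν = γ := by
  have hne := minpoly.ne_zero (isInt ν)
  rw [mem_rootSet_of_ne hne]
  constructor
  · intro h
    have h1 : minpoly ℚ ν = minpoly ℚ γ := minpoly.eq_of_irreducible_of_monic
      (minpoly.irreducible (isInt ν)) h (minpoly.monic (isInt ν))
    have h2 : IsConjRoot ℚ ν γ := h1
    obtain ⟨g, hg⟩ := isConjRoot_iff_exists_algEquiv.1 h2
    exact ⟨g⁻¹, by rw [← hg]; exact AlgEquiv.symm_apply_apply g γ⟩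
  · rintro ⟨g, rfl⟩
    rw [aeval_algHom_apply g ν, minpoly.aeval, map_zero]

/-- the action on the conjugates -/
noncomputable def gact (ν : Qb) (h : GQ) : Cj ν ≃ Cj ν where
  toFun γ := ⟨h γ.1, by
    obtain ⟨g, hg⟩ := mem_cj.1 γ.2
    exact mem_cj.2 ⟨h * g, by rw [← hg]; rfl⟩⟩
  invFun γ := ⟨h⁻¹ γ.1, by
    obtain ⟨g, hg⟩ := mem_cj.1 γ.2
    exact mem_cj.2 ⟨h⁻¹ * g, by rw [← hg]; rfl⟩⟩
  left_inv γ := Subtype.ext (AlgEquiv.symm_apply_apply h γ.1)
  right_inv γ := Subtype.ext (AlgEquiv.apply_symm_apply h γ.1)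

lemma gact_val (ν : Qb) (h : GQ) (γ : Cj ν) : (gact ν h γ).1 = h γ.1 := rfl

/-- an automorphism which sends `ν` to `γ` -/
noncomputable def gg (ν : Qb) (γ : Cj ν) : GQ := (mem_cj.1 γ.2).choose

lemma gg_spec (ν : Qb) (γ : Cj ν) : gg ν γ ν = γ.1 := (mem_cj.1 γ.2).choose_spec

/-- the base point -/
noncomputable def base (ν : Qb) : Cj ν := ⟨ν, mem_cj.2 ⟨1, rfl⟩⟩

variable {r : ℕ} {E : Fin r → Type} [∀ i, Field (E i)] [∀ i, NumberField (E i)]
  [∀ i, IsCMField (E i)]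

/-- the coefficients -/
noncomputable def co (ν : Qb) (f : ∀ i, (E i →+* Qb) → ℚ) (i : Fin r) (σ : E i →+* Qb)
    (γ : Cj ν) : ℚ :=
  f i (act (gg ν γ)⁻¹ σ)

variable {ν : Qb} {f : ∀ i, (E i →+* Qb) → ℚ}

lemma co_gact (hinv : ∀ h : GQ, h ν = ν → ∀ i σ, f i (act h σ) = f i σ) (h : GQ) (i : Fin r)
    (σ : E i →+* Qb) (γ : Cj ν) : co ν f i (act h σ) (gact ν h γ) = co ν f i σ γ := by
  unfold co
  have h1 : ((gg ν (gact ν h γ))⁻¹ * h * gg ν γ) ν = ν := by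
    change (gg ν (gact ν h γ))⁻¹ (h (gg ν γ ν)) = ν
    rw [gg_spec, ← gact_val, ← gg_spec ν (gact ν h γ)]
    exact AlgEquiv.symm_apply_apply _ _
  have h2 := hinv _ h1 i (act (gg ν γ)⁻¹ σ)
  rw [← h2]
  congr 1
  rw [← act_mul, ← act_mul]
  congr 1
  group

lemma co_base (hinv : ∀ h : GQ, h ν = ν → ∀ i σ, f i (act h σ) = f i σ) (i : Fin r)
    (σ : E i →+* Qb) : co ν f i σ (base ν) = f i σ := by
  unfold co
  refine hinv _ ?_ i σ
  have h1 := gg_spec ν (base ν)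
  have h2 : (gg ν (base ν))⁻¹ (gg ν (base ν) ν) = ν := AlgEquiv.symm_apply_apply _ _
  rwa [h1] at h2

lemma co_cj (hf : ∀ i, IsOddFun (f i)) (i : Fin r) (σ : E i →+* Qb) (γ : Cj ν) :
    co ν f i (cj σ) γ = - co ν f i σ γ := by
  unfold co
  rw [act_cj]
  exact hf i _

/-- the complex conjugation of the algebraic numbers -/
theorem exists_conj : ∃ c : GQ, ∀ (F : Type) [Field F] [NumberField F] [IsCMField F]
    (σ : F →+* Qb), act c σ = cj σ := by
  let φ : Qb →+* ℂ := (IsAlgClosed.lift : Qb →ₐ[ℚ] ℂ).toRingHom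
  let _ : Algebra Qb ℂ := φ.toAlgebra
  have hst : IsScalarTower ℚ Qb ℂ := IsScalarTower.of_algebraMap_eq fun x => by
    change (x : ℂ) = φ (algebraMap ℚ Qb x)
    rw [eq_ratCast, map_ratCast]
  let ψ : ℂ →ₐ[ℚ] ℂ := RingHom.toRatAlgHom (starRingEnd ℂ)
  let h : Qb ≃ₐ[ℚ] Qb := ψ.restrictNormal' Qb
  have hh : ∀ x, φ (h x) = starRingEnd ℂ (φ x) := fun x =>
    AlgHom.restrictNormal_commutes ψ Qb x
  refine ⟨h, fun F _ _ _ σ => ?_⟩
  ext x
  apply φ.injective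
  change φ (h (σ x)) = _
  rw [hh]
  exact (IsCMField.complexEmbedding_complexConj F (φ.comp σ) x).symm

/-- the invariant matrices -/
noncomputable def SS (ν : Qb) (f : ∀ i, (E i →+* Qb) → ℚ) (i j : Fin r) (σ : E i →+* Qb)
    (τ : E j →+* Qb) : ℚ :=
  ∑ γ : Cj ν, co ν f i σ γ * co ν f j τ γ

lemma SS_act (hinv : ∀ h : GQ, h ν = ν → ∀ i σ, f i (act h σ) = f i σ) (h : GQ) (i j : Fin r)
    (σ : E i →+* Qb) (τ : E j →+* Qb) :
    SS ν f i j (act h σ) (act h τ) = SS ν f i j σ τ := by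
  unfold SS
  rw [← Equiv.sum_comp (gact ν h)]
  refine Finset.sum_congr rfl fun γ _ => ?_
  rw [co_gact hinv, co_gact hinv]

lemma SS_cj1 (hf : ∀ i, IsOddFun (f i)) (i j : Fin r)
    (σ : E i →+* Qb) (τ : E j →+* Qb) : SS ν f i j (cj σ) τ = - SS ν f i j σ τ := by
  unfold SS
  rw [← Finset.sum_neg_distrib]
  refine Finset.sum_congr rfl fun γ _ => ?_
  rw [co_cj hf, neg_mul]

lemma SS_cj2 (hf : ∀ i, IsOddFun (f i)) (i j : Fin r)
    (σ : E i →+* Qb) (τ : E j →+* Qb) : SS ν f i j σ (cj τ) = - SS ν f i j σ τ := by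
  unfold SS
  rw [← Finset.sum_neg_distrib]
  refine Finset.sum_congr rfl fun γ _ => ?_
  rw [co_cj hf, mul_neg]

/-- different fields -/
lemma SS_ne (hf : ∀ i, IsOddFun (f i))
    (hinv : ∀ h : GQ, h ν = ν → ∀ i σ, f i (act h σ) = f i σ)
    (hpair : ∀ i j, i ≠ j → NoInv (E i) (galoisClosure (E j)) ∨ NoInv (E j) (galoisClosure (E i)))
    {i j : Fin r} (hij : i ≠ j) (σ : E i →+* Qb) (τ : E j →+* Qb) : SS ν f i j σ τ = 0 := by
  rcases hpair i j hij with h | h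
  · have h1 := h (fun σ => SS ν f i j σ τ) (fun σ => SS_cj1 hf i j σ τ) (by
      intro k hk σ
      have h2 := SS_act hinv k i j σ τ
      rw [fix_closure hk] at h2
      exact h2)
    exact congrFun h1 σ
  · have h1 := h (fun τ => SS ν f i j σ τ) (fun τ => SS_cj2 hf i j σ τ) (by
      intro k hk τ
      have h2 := SS_act hinv k i j σ τ
      rw [fix_closure hk] at h2
      exact h2)
    exact congrFun h1 τ

/-- **The orthogonality argument.** -/
theorem core (hsc : ∀ i, HasScalarCommutant (E i)) (hf : ∀ i, IsOddFun (f i))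
    (hint : ∀ i σ, ∃ m : ℤ, f i σ = m)
    (hinv : ∀ h : GQ, h ν = ν → ∀ i σ, f i (act h σ) = f i σ)
    (hpair : ∀ i j, i ≠ j → NoInv (E i) (galoisClosure (E j)) ∨ NoInv (E j) (galoisClosure (E i)))
    {l : ∀ i, (E i →+* Qb) → ℝ} (hl : ∀ i σ, l i (cj σ) = - l i σ) {y : Qb → ℝ} {κ : ℝ}
    (hy : ∀ g : GQ, y (g ν) = κ - 1 / 2 * ∑ i, ∑ σ, (f i σ : ℝ) * l i (act g σ))
    (x : ℝ) (i₀ : Fin r) (hi₀ : f i₀ ≠ 0) :
    ∑ σ, (l i₀ σ) ^ 2 ≤ ∑ γ : Cj ν, (y γ.1 - x) ^ 2 := by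
  classical
  obtain ⟨c, hc⟩ := exists_conj
  -- the sums
  let w : Fin r → Cj ν → ℝ := fun i γ => ∑ σ, l i σ * (co ν f i σ γ : ℝ)
  have hcc : ∀ i (σ : E i →+* Qb) (γ : Cj ν), co ν f i σ (gact ν c γ) = - co ν f i σ γ := by
    intro i σ γ
    have h1 := co_gact hinv c i σ γ
    rw [hc, co_cj hf] at h1
    linarith
  have hwc : ∀ i (γ : Cj ν), w i (gact ν c γ) = - w i γ := by
    intro i γ
    simp only [w, hcc]
    rw [← Finset.sum_neg_distrib]
    refine Finset.sum_congr rfl fun σ _ => ?_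
    push_cast
    ring
  have hw0 : ∀ i, ∑ γ, w i γ = 0 := by
    intro i
    have h1 : ∑ γ, w i γ = ∑ γ, w i (gact ν c γ) := (Equiv.sum_comp (gact ν c) _).symm
    simp only [hwc, Finset.sum_neg_distrib] at h1
    linarith
  have hyw : ∀ γ : Cj ν, y γ.1 = κ - 1 / 2 * ∑ i, w i γ := by
    intro γ
    have h1 := hy (gg ν γ)
    rw [gg_spec] at h1
    rw [h1]
    congr 2
    refine Finset.sum_congr rfl fun i _ => ?_
    rw [← sum_act (gg ν γ)⁻¹ fun σ => (f i σ : ℝ) * l i (act (gg ν γ) σ)]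
    refine Finset.sum_congr rfl fun σ _ => ?_
    rw [act_act_inv]
    unfold co
    ring
  -- the products
  have hww : ∀ i j, ∑ γ, w i γ * w j γ =
      ∑ σ : E i →+* Qb, ∑ τ : E j →+* Qb, l i σ * l j τ * (SS ν f i j σ τ : ℝ) := by
    intro i j
    simp only [w, SS]
    push_cast
    simp only [Finset.mul_sum, Finset.sum_mul]
    rw [Finset.sum_comm]
    rw [Finset.sum_comm]
    rw [Finset.sum_congr rfl fun γ _ => Finset.sum_comm, Finset.sum_comm]
    refine Finset.sum_congr rfl fun σ _ => ?_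
    rw [Finset.sum_comm]
    refine Finset.sum_congr rfl fun τ _ => ?_
    refine Finset.sum_congr rfl fun γ _ => ?_
    ring
  have hne : ∀ i j, i ≠ j → ∑ γ, w i γ * w j γ = 0 := by
    intro i j hij
    rw [hww]
    refine Finset.sum_eq_zero fun σ _ => Finset.sum_eq_zero fun τ _ => ?_
    rw [SS_ne hf hinv hpair hij]
    simp
  have hdiag : ∀ i (σ τ : E i →+* Qb), Apart σ τ → SS ν f i i σ τ = 0 := by
    intro i σ τ h
    exact hsc i (SS ν f i i) (fun σ τ => SS_cj2 hf i i σ τ) (fun τ σ => SS_cj1 hf i i σ τ)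
      (fun g σ τ => SS_act hinv g i i σ τ) σ τ h
  have hconst : ∀ i (σ τ : E i →+* Qb), SS ν f i i σ σ = SS ν f i i τ τ := by
    intro i σ τ
    obtain ⟨g, hg⟩ := exists_act_eq σ τ
    rw [← hg, SS_act hinv]
  have heq : ∀ i (σ₀ : E i →+* Qb), ∑ γ, w i γ * w i γ =
      2 * (SS ν f i i σ₀ σ₀ : ℝ) * ∑ σ, (l i σ) ^ 2 := by
    intro i σ₀
    rw [hww, Finset.mul_sum]
    refine Finset.sum_congr rfl fun σ _ => ?_
    rw [← Finset.sum_subset (Finset.subset_univ {σ, cj σ})]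
    · rw [Finset.sum_pair (cj_ne σ).symm, SS_cj2 hf, hl, hconst i σ σ₀]
      push_cast
      ring
    · intro τ _ hτ
      rw [Finset.mem_insert, Finset.mem_singleton, not_or] at hτ
      have h1 : Apart σ τ := by
        refine ⟨fun h => hτ.1 h.symm, fun h => hτ.2 ?_⟩
        have h2 : σ = cj τ := h
        rw [h2, cj_cj]
      rw [hdiag i σ τ h1]
      simp
  -- the lower bound for the coefficients
  obtain ⟨ρ, hρ⟩ : ∃ ρ, f i₀ ρ ≠ 0 := by
    by_contra hcon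
    push Not at hcon
    exact hi₀ (funext hcon)
  have hS2 : (2 : ℝ) ≤ (SS ν f i₀ i₀ ρ ρ : ℝ) := by
    have h1 : (2 : ℚ) ≤ SS ν f i₀ i₀ ρ ρ := by
      have hb := co_base hinv i₀ ρ
      have hb' := hcc i₀ ρ (base ν)
      rw [hb] at hb'
      have hnb : base ν ≠ gact ν c (base ν) := by
        intro h
        rw [← h, hb] at hb'
        exact hρ (by linarith)
      have h2 : ∑ γ ∈ ({base ν, gact ν c (base ν)} : Finset (Cj ν)),
          co ν f i₀ ρ γ * co ν f i₀ ρ γ ≤ SS ν f i₀ i₀ ρ ρ := by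
        unfold SS
        exact Finset.sum_le_sum_of_subset_of_nonneg (Finset.subset_univ _)
          fun γ _ _ => mul_self_nonneg _
      rw [Finset.sum_pair hnb, hb, hb'] at h2
      obtain ⟨m, hm⟩ := hint i₀ ρ
      have h3 : m ≠ 0 := by
        rintro rfl
        exact hρ (by rw [hm, Int.cast_zero])
      have h4 : (1 : ℤ) ≤ m * m := by
        have : 0 < m * m := mul_self_pos.2 h3
        omega
      have h5 : (1 : ℚ) ≤ f i₀ ρ * f i₀ ρ := by
        rw [hm]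
        exact_mod_cast h4
      linarith
    exact_mod_cast h1
  have hnn : ∀ i, 0 ≤ ∑ γ, w i γ * w i γ := fun i =>
    Finset.sum_nonneg fun γ _ => mul_self_nonneg _
  -- the conclusion
  have h1 : ∑ γ : Cj ν, (y γ.1 - x) ^ 2 = ∑ γ : Cj ν, (κ - x) ^ 2
      - (κ - x) * ∑ i, ∑ γ, w i γ + 1 / 4 * ∑ i, ∑ j, ∑ γ, w i γ * w j γ := by
    have h2 : ∀ γ : Cj ν, (y γ.1 - x) ^ 2 = (κ - x) ^ 2 - (κ - x) * ∑ i, w i γ +
        1 / 4 * ∑ i, ∑ j, w i γ * w j γ := by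
      intro γ
      rw [hyw, ← Finset.sum_mul_sum]
      ring
    rw [Finset.sum_congr rfl fun γ _ => h2 γ, Finset.sum_add_distrib, Finset.sum_sub_distrib,
      ← Finset.mul_sum, ← Finset.mul_sum, Finset.sum_comm]
    congr 2
    rw [Finset.sum_comm]
    refine Finset.sum_congr rfl fun i _ => ?_
    rw [Finset.sum_comm]
  have h2 : ∑ i, ∑ j, ∑ γ, w i γ * w j γ = ∑ i, ∑ γ, w i γ * w i γ := by
    refine Finset.sum_congr rfl fun i _ => ?_
    rw [Finset.sum_eq_single i (fun j _ hj => hne i j (Ne.symm hj))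
      (fun h => absurd (Finset.mem_univ i) h)]
  have h3 : ∑ i, ∑ γ, w i γ = 0 := Finset.sum_eq_zero fun i _ => hw0 i
  have h4 : ∑ γ, w i₀ γ * w i₀ γ ≤ ∑ i, ∑ γ, w i γ * w i γ :=
    Finset.single_le_sum (f := fun i => ∑ γ, w i γ * w i γ) (fun i _ => hnn i)
      (Finset.mem_univ i₀)
  have h5 : 0 ≤ ∑ γ : Cj ν, (κ - x) ^ 2 := Finset.sum_nonneg fun _ _ => sq_nonneg _
  have h6 : 0 ≤ ∑ σ, (l i₀ σ) ^ 2 := Finset.sum_nonneg fun _ _ => sq_nonneg _
  rw [h1, h2, h3]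
  rw [heq i₀ ρ] at h4
  nlinarith

end Pool.Agent.NH33.Nw
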