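import Pool.Agent.NH33.Nw.Defs
import Pool.Agent.NH33.Nw.Core
import Pool.Agent.NH33.Ir.Bal

/-!
# Varieties with small slopes: balance
-/

set_option autoImplicit false
set_option linter.unusedSectionVars false

namespace Pool.Agent.NH33.Nw

open NumberField Polynomial Module Pool.Agent.TH121.KT Pool.Agent.Y103.Hk Pool.Agent.Y103.Sh
  Pool.Agent.NH33.Ir Pool.Agent.NH33.Sf

variable {r : ℕ} {E : Fin r → Type} [∀ i, Field (E i)] [∀ i, NumberField (E i)]
  [∀ i, IsCMField (E i)] {p : ℕ} [Fact p.Prime] {ι : Qb →+* PadicAlgCl p} {α : ∀ i, E i}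
  {a : Fin r → ℕ}

lemma logp_pos (p : ℕ) [Fact p.Prime] : 0 < Real.log p :=
  Real.log_pos (by exact_mod_cast (Fact.out : p.Prime).one_lt)

/-- the number one is narrow -/
lemma narrow_one (ha : ∀ i, 0 < a i) (hns : ∀ i, ∃ σ : E i →+* Qb, ‖ι (σ (α i))‖ ≠ 1)
    (hu : ∀ i, ∀ φ : E i →+* ℂ, ‖φ (α i)‖ = 1)
    {Ω : Type*} [Field Ω] [CharZero Ω] (d : ℕ) : IsNarrow ι α a d (1 : Ω) := by
  refine ⟨isAlgebraic_one, 0, fun i => ?_⟩
  have h1 : ∑ γ : (minpoly ℚ (1 : Ω)).rootSet Qb, (slope ι d γ.1 - 0) ^ 2 = 0 := by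
    refine Finset.sum_eq_zero fun γ _ => ?_
    have h3 : γ.1 = 1 := by
      have key : ∀ δ : Qb, aeval δ (minpoly ℚ (1 : Ω)) = 0 → δ = 1 := by
        intro δ h4
        rw [minpoly.one, map_sub, aeval_X, map_one, sub_eq_zero] at h4
        exact h4
      exact key γ.1 (mem_rootSet.1 γ.2).2
    rw [h3, slope, map_one, norm_one, Real.log_one]
    simp
  rw [h1]
  obtain ⟨σ, hσ⟩ := hns i
  refine Finset.sum_pos' (fun _ _ => sq_nonneg _) ⟨σ, Finset.mem_univ _, ?_⟩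
  have h2 : slope ι (a i) (σ (α i)) ≠ 0 := by
    unfold slope
    refine div_ne_zero (neg_ne_zero.2 ?_) (mul_ne_zero ?_ (logp_pos p).ne')
    · exact Real.log_ne_zero_of_pos_of_ne_one (norm_pos' (hu i) σ) hσ
    · exact_mod_cast (ha i).ne'
  positivity

lemma slope_pow (d n : ℕ) (hn : 0 < n) (γ : Qb) :
    slope ι (d * n) (γ ^ n) = slope ι d γ := by
  unfold slope
  rw [map_pow, norm_pow, Real.log_pow]
  have h1 : (n : ℝ) ≠ 0 := by exact_mod_cast hn.ne'
  by_cases hd : (d : ℝ) = 0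
  · push_cast
    rw [hd]
    simp
  · push_cast
    have h2 := (logp_pos p).ne'
    field_simp

/-- powers of narrow numbers are narrow -/
lemma narrow_pow {Ω : Type*} [Field Ω] [CharZero Ω] [IsAlgClosed Ω] {d : ℕ} {ν : Ω} {n : ℕ}
    (hn : 0 < n) (h : IsNarrow ι α a d ν) : IsNarrow ι α a (d * n) (ν ^ n) := by
  classical
  obtain ⟨halg, x, hx⟩ := h
  let τ : Qb →ₐ[ℚ] Ω := IsAlgClosed.lift
  obtain ⟨ν', -, hν'⟩ := exists_root (τ : Qb →+* Ω) (minpoly.ne_zero halg.isIntegral)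
    (minpoly.aeval ℚ ν)
  have hν'' : τ ν' = ν := hν'
  have hm : minpoly ℚ ν = minpoly ℚ ν' := by
    rw [← hν'']
    exact minpoly.algHom_eq τ τ.injective ν'
  have hmn : minpoly ℚ (ν ^ n) = minpoly ℚ (ν' ^ n) := by
    rw [← hν'', ← map_pow]
    exact minpoly.algHom_eq τ τ.injective (ν' ^ n)
  refine ⟨halg.pow n, x, fun i => lt_of_le_of_lt ?_ (hx i)⟩
  rw [hm, hmn]
  have hsurj : ∀ δ : Cj (ν' ^ n), ∃ γ : Cj ν', γ.1 ^ n = δ.1 := by
    intro δ
    obtain ⟨g, hg⟩ := mem_cj.1 δ.2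
    exact ⟨⟨g ν', mem_cj.2 ⟨g, rfl⟩⟩, by rw [← hg, map_pow]⟩
  choose s hs using hsurj
  have hinj : Function.Injective s := by
    intro δ δ' h
    apply Subtype.ext
    rw [← hs, ← hs, h]
  have h1 : ∑ δ : Cj (ν' ^ n), (slope ι (d * n) δ.1 - x) ^ 2 =
      ∑ δ : Cj (ν' ^ n), (slope ι d (s δ).1 - x) ^ 2 := by
    refine Finset.sum_congr rfl fun δ _ => ?_
    rw [← hs δ, slope_pow d n hn]
  have h2 : ∑ δ : Cj (ν' ^ n), (slope ι d (s δ).1 - x) ^ 2 ≤
      ∑ γ : Cj ν', (slope ι d γ.1 - x) ^ 2 := by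
    rw [← Finset.sum_image (f := fun γ : Cj ν' => (slope ι d γ.1 - x) ^ 2)
      (fun _ _ _ _ h => hinj h)]
    exact Finset.sum_le_sum_of_subset_of_nonneg (Finset.subset_univ _) fun _ _ _ => sq_nonneg _
  exact h1.le.trans h2

/-- **Balance.** -/
theorem balanced_narrow (H : FamOK ι α ∅) (hsc : ∀ i, HasScalarCommutant (E i))
    (ha : ∀ i, 0 < a i) {N : ∀ i, (E i →+* Qb) → ℕ} {w : Fin r → ℕ} {W d : ℕ} (hW : 0 < W)
    (hd : 0 < d) (hw : ∀ i, w i * a i = W * d) {ν : Qb} (hν : IsNarrow ι α a d ν)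
    (hν0 : ν ≠ 0) {x₀ : ℚ}
    (hrel : (∏ i, ∏ σ : E i →+* Qb, (σ (α i)) ^ (w i * N i σ)) * ν ^ W = (x₀ : Qb))
    (i : Fin r) (σ : E i →+* Qb) : N i σ = N i (cj σ) := by
  classical
  have hp := logp_pos p
  have hdR : (0 : ℝ) < d := by exact_mod_cast hd
  have hWR : (0 : ℝ) < W := by exact_mod_cast hW
  have haR : ∀ i, (0 : ℝ) < a i := fun i => by exact_mod_cast ha i
  have hwR : ∀ i, (w i : ℝ) = W * d / a i := by
    intro i
    rw [eq_div_iff (haR i).ne']
    exact_mod_cast hw i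
  -- logarithms
  have hsum : ∀ g : GQ, ∑ i, (w i : ℝ) * FF ι (α i) (N i) g + W * Real.log ‖ι (g ν)‖ =
      Real.log ‖ι (x₀ : Qb)‖ := by
    intro g
    have h1 := congrArg (fun z => Real.log ‖ι (g z)‖) hrel
    simp only [map_mul, map_pow, map_prod, norm_mul, norm_pow, norm_prod, map_ratCast] at h1
    have hne : ‖ι (g ν)‖ ≠ 0 := by
      rw [norm_ne_zero_iff, ne_eq, map_eq_zero, map_eq_zero]
      exact hν0
    have hne1 : ∀ i (σ : E i →+* Qb), ‖ι (g (σ (α i)))‖ ^ (w i * N i σ) ≠ 0 := fun i σ =>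
      pow_ne_zero _ (norm_pos' (H.unitary i) (act g σ)).ne'
    rw [Real.log_mul, Real.log_prod, Real.log_pow] at h1
    rotate_left
    · intro i _
      exact Finset.prod_ne_zero_iff.2 fun σ _ => hne1 i σ
    · exact Finset.prod_ne_zero_iff.2 fun i _ => Finset.prod_ne_zero_iff.2 fun σ _ => hne1 i σ
    · exact pow_ne_zero _ hne
    rw [map_ratCast, ← h1]
    congr 1
    refine Finset.sum_congr rfl fun i _ => ?_
    rw [Real.log_prod]
    · unfold FF
      rw [Finset.mul_sum]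
      refine Finset.sum_congr rfl fun σ _ => ?_
      rw [Real.log_pow]
      push_cast
      ring
    · intro σ _
      exact hne1 i σ
  let f : ∀ i, (E i →+* Qb) → ℚ := fun i σ => (TH121.KT.odd (N i) σ : ℤ)
  have hf : ∀ i, IsOddFun (f i) := by
    intro i σ
    change ((TH121.KT.odd (N i) (cj σ) : ℤ) : ℚ) = - ((TH121.KT.odd (N i) σ : ℤ) : ℚ)
    rw [odd_cj]
    push_cast
    ring
  have hLg : ∀ i g, Lg ι (α i) (f i) g = 2 * FF ι (α i) (N i) g := by
    intro i g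
    rw [← two_FF (H.unitary i) (N i) g]
    unfold Lg
    refine Finset.sum_congr rfl fun σ _ => ?_
    simp only [f]
    push_cast
    ring
  let l : ∀ i, (E i →+* Qb) → ℝ := fun i σ => slope ι (a i) (σ (α i))
  have hl : ∀ i σ, l i (cj σ) = - l i σ := by
    intro i σ
    simp only [l, slope]
    rw [cj_norm (H.unitary i), Real.log_inv]
    ring
  -- the slopes of the conjugates of `ν`
  have hy : ∀ g : GQ, slope ι d (g ν) = slope ι (W * d) (x₀ : Qb) -
      1 / 2 * ∑ i, ∑ σ, (f i σ : ℝ) * l i (act g σ) := by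
    intro g
    have h1 := hsum g
    have h2 : ∀ i, ∑ σ, (f i σ : ℝ) * l i (act g σ) =
        - (2 * FF ι (α i) (N i) g) / (a i * Real.log p) := by
      intro i
      rw [← hLg, Lg, neg_div, Finset.sum_div, ← Finset.sum_neg_distrib]
      refine Finset.sum_congr rfl fun σ _ => ?_
      simp only [l, slope]
      change (f i σ : ℝ) * (-Real.log ‖ι (g (σ (α i)))‖ / _) = _
      ring
    simp only [h2]
    have h3 : ∀ i, - (2 * FF ι (α i) (N i) g) / (a i * Real.log p) =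
        - (2 / (W * d * Real.log p)) * ((w i : ℝ) * FF ι (α i) (N i) g) := by
      intro i
      rw [hwR]
      have := (haR i).ne'
      field_simp
    rw [Finset.sum_congr rfl fun i _ => h3 i, ← Finset.mul_sum]
    unfold slope
    have h4 : Real.log ‖ι (g ν)‖ = (Real.log ‖ι (x₀ : Qb)‖ -
        ∑ i, (w i : ℝ) * FF ι (α i) (N i) g) / W := by
      rw [← h1]
      field_simp
      ring
    rw [h4]
    push_cast
    field_simp
    ring
  -- the functions are invariant under the stabiliser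
  have hinv : ∀ h : GQ, h ν = ν → ∀ i σ, f i (act h σ) = f i σ := by
    intro h hh i σ
    have hh' : h⁻¹ ν = ν := by
      have h1 : h⁻¹ (h ν) = ν := AlgEquiv.symm_apply_apply h ν
      rwa [hh] at h1
    have h1 := H.triv.zero [] (fun i => (w i : ℚ) • (tl h⁻¹⁻¹ (f i) - f i))
      (fun L hL => absurd hL List.not_mem_nil)
      (fun i => odd_smul (odd_sub (odd_tl (hf i) _) (hf i)) _) (by
        intro g
        change ∑ i, Lg ι (α i) ((w i : ℚ) • (tl h⁻¹⁻¹ (f i) - f i)) g = 0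
        have h2 : ∀ i, Lg ι (α i) ((w i : ℚ) • (tl h⁻¹⁻¹ (f i) - f i)) g =
            2 * ((w i : ℝ) * FF ι (α i) (N i) (g * h⁻¹)) -
              2 * ((w i : ℝ) * FF ι (α i) (N i) g) := by
          intro i
          rw [Lg_smul, Lg_sub, Lg_tl, hLg, hLg]
          push_cast
          ring
        rw [Finset.sum_congr rfl fun i _ => h2 i, Finset.sum_sub_distrib, ← Finset.mul_sum,
          ← Finset.mul_sum]
        have h3 := hsum (g * h⁻¹)
        have h4 := hsum g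
        have h5 : (g * h⁻¹) ν = g ν := by
          change g (h⁻¹ ν) = g ν
          rw [hh']
        rw [h5] at h3
        linarith) i
    have h2 := congrFun h1 σ
    have h3 : (w i : ℚ) * (f i (act h⁻¹⁻¹ σ) - f i σ) = 0 := h2
    have h4 : (w i : ℚ) ≠ 0 := by
      have h5 := hwR i
      have h6 : (0 : ℝ) < w i := by
        rw [h5]
        have := haR i
        positivity
      have h7 : 0 < w i := by exact_mod_cast h6
      exact_mod_cast h7.ne'
    have h5 := (mul_eq_zero.1 h3).resolve_left h4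
    rw [inv_inv] at h5
    linarith
  by_contra hne
  have hfi : f i ≠ 0 := by
    intro h0
    have h1 := congrFun h0 σ
    change ((TH121.KT.odd (N i) σ : ℤ) : ℚ) = 0 at h1
    have h2 : TH121.KT.odd (N i) σ = 0 := by exact_mod_cast h1
    unfold TH121.KT.odd at h2
    omega
  obtain ⟨-, x, hx⟩ := hν
  have h1 := core hsc hf (fun i σ => ⟨_, rfl⟩) hinv H.pair hl hy x i hfi
  exact absurd (hx i) (not_lt.2 h1)

/-- **Balance**, in an algebraically closed field. -/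
theorem balanced_narrow_closed (H : FamOK ι α ∅) (hsc : ∀ i, HasScalarCommutant (E i))
    (ha : ∀ i, 0 < a i) {Ω : Type*} [Field Ω] [CharZero Ω] [IsAlgClosed Ω]
    {N : ∀ i, (E i →+* Ω) → ℕ} {w : Fin r → ℕ} {W d : ℕ} (hW : 0 < W) (hd : 0 < d)
    (hw : ∀ i, w i * a i = W * d) {ν : Ω} (hν : IsNarrow ι α a d ν) (hν0 : ν ≠ 0) {x₀ : ℚ}
    (hrel : (∏ i, ∏ σ : E i →+* Ω, (σ (α i)) ^ (w i * N i σ)) * ν ^ W = (x₀ : Ω))
    (i : Fin r) (σ : E i →+* Ω) : N i σ = N i (cj σ) := by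
  classical
  let τ : Qb →ₐ[ℚ] Ω := IsAlgClosed.lift
  obtain ⟨ν', -, hν'⟩ := exists_root (τ : Qb →+* Ω) (minpoly.ne_zero hν.1.isIntegral)
    (minpoly.aeval ℚ ν)
  have hν'' : τ ν' = ν := hν'
  have hm : minpoly ℚ ν = minpoly ℚ ν' := by
    rw [← hν'']
    exact minpoly.algHom_eq τ τ.injective ν'
  have hbij : ∀ i, Function.Bijective (fun ρ : E i →+* Qb => (τ : Qb →+* Ω).comp ρ) := by
    intro i
    constructor
    · intro ρ ρ' h
      ext x
      exact τ.injective (RingHom.congr_fun h x)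
    · intro σ
      obtain ⟨ρ, hρ⟩ := exists_lift (τ : Qb →+* Ω) σ
      exact ⟨ρ, hρ⟩
  let N' : ∀ i, (E i →+* Qb) → ℕ := fun i ρ => N i ((τ : Qb →+* Ω).comp ρ)
  have hprod : ∏ i, ∏ σ : E i →+* Ω, (σ (α i)) ^ (w i * N i σ) =
      τ (∏ i, ∏ ρ : E i →+* Qb, (ρ (α i)) ^ (w i * N' i ρ)) := by
    rw [map_prod]
    refine Finset.prod_congr rfl fun i _ => ?_
    rw [map_prod]
    refine (Fintype.prod_equiv (Equiv.ofBijective _ (hbij i)) _ _ fun ρ => ?_).symm
    rw [map_pow]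
    rfl
  have hν'0 : ν' ≠ 0 := by
    rintro rfl
    apply hν0
    rw [← hν'', map_zero]
  have hnar : IsNarrow ι α a d ν' := by
    refine ⟨Algebra.IsAlgebraic.isAlgebraic ν', ?_⟩
    have h1 := hν.2
    rwa [hm] at h1
  have hbal := balanced_narrow H hsc ha (N := N') hW hd hw hnar hν'0 (x₀ := x₀) (by
    refine τ.injective ?_
    change τ (_ * _) = τ _
    rw [map_mul, ← hprod, map_pow, hν'', map_ratCast]
    exact hrel)
  obtain ⟨ρ, rfl⟩ := (hbij i).2 σ
  exact hbal i ρ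

end Pool.Agent.NH33.Nw
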