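import Pool.Agent.NH33.Ir.GeoDefs
import Pool.Agent.NH33.Sf.Defs

/-!
# Varieties with narrow Frobenius eigenvalues: definitions
-/

set_option autoImplicit false

open CategoryTheory AlgebraicGeometry NumberField

universe u v

namespace Pool.Agent.NH33.Nw

open Pool.Agent.H914 Pool.Agent.H914.VarClass Pool.Agent.H914.VarClass.Obj
  Pool.Agent.H914.WeilCohomology Pool.Agent.W534

/-- The slope of the algebraic number `γ` at the place `ι`: its `p`-adic valuation, normalised such
that `p ^ d` has slope one. -/
noncomputable def slope {p : ℕ} [Fact p.Prime] (ι : AlgebraicClosure ℚ →+* PadicAlgCl p) (d : ℕ)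
    (γ : AlgebraicClosure ℚ) : ℝ :=
  - Real.log ‖ι γ‖ / (d * Real.log p)

/-- The algebraic number `ν` is *narrow*, as an eigenvalue of the Frobenius endomorphism over the
field with `p ^ d` elements: for some real number `x`, the sum of the squares of the deviations from
`x` of the slopes of all conjugates of `ν` is smaller, for each `i`, than the sum of the squares of
the slopes of all conjugates of `α i`, where the latter slopes are normalised such that `p ^ (a i)`
has slope one. -/
def IsNarrow {p : ℕ} [Fact p.Prime] (ι : AlgebraicClosure ℚ →+* PadicAlgCl p) {r : ℕ}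
    {E : Fin r → Type} [∀ i, Field (E i)] [∀ i, NumberField (E i)] (α : ∀ i, E i)
    (a : Fin r → ℕ) {Ω : Type*} [Field Ω] [CharZero Ω] (d : ℕ) (ν : Ω) : Prop :=
  IsAlgebraic ℚ ν ∧ ∃ x : ℝ, ∀ i,
    ∑ γ : (minpoly ℚ ν).rootSet (AlgebraicClosure ℚ), (slope ι d γ.1 - x) ^ 2 <
      ∑ σ : E i →+* AlgebraicClosure ℚ, (slope ι (a i) (σ (α i))) ^ 2

/-- The eigenvalues of the Frobenius endomorphism of `U` are narrow in comparison with the
eigenvalues of the Frobenius endomorphisms in `H^(b i)(X i)` given by the conjugates of `α i`: the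
deviations of their slopes from `b i / 2` are the slopes of the conjugates of the `e i`-th root of
`α i`. -/
def HasNarrowEigenvalues {k : Type u} [Field k] {𝒱 : VarClass k} {ops : CycleOps 𝒱}
    {W : WeilCohomology.{u, v} ops} {p : ℕ} [Fact p.Prime] (Φ : FrobSystem W p)
    (ι : AlgebraicClosure ℚ →+* PadicAlgCl p) {r : ℕ} (X : Fin r → 𝒱.Obj) (e : Fin r → ℕ)
    {E : Fin r → Type} [∀ i, Field (E i)] [∀ i, NumberField (E i)] (α : ∀ i, E i)
    (U : 𝒱.Obj) : Prop :=
  ∀ ν : W.K, Module.End.HasEigenvalue (W.map (Φ.Fr U)).toLinearMap ν →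
    IsNarrow ι α (fun i => e i * Φ.e (X i)) (Φ.e U) ν

end Pool.Agent.NH33.Nw
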