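import Pool.Agent.NH33.Nw.Bal
import Pool.Agent.NH33.Nw.Times
import Pool.Agent.NH33.Ir.Final
import Pool.Agent.NH33.Sf.Final
import Pool.Agent.Y103.Hk.Main2

/-!
# The Tate conjecture for the products with narrow varieties: conclusion
-/

set_option autoImplicit false
set_option linter.unusedSectionVars false

open CategoryTheory AlgebraicGeometry NumberField Polynomial
open scoped TensorProduct

universe u v

namespace Pool.Agent.NH33.Ir

open Pool.Agent.H914 Pool.Agent.H914.VarClass Pool.Agent.H914.VarClass.Obj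
  Pool.Agent.H914.WeilCohomology Pool.Agent.H281R3.HT Pool.Agent.W552 Pool.Agent.W534
  Pool.Agent.W458.RK Pool.Agent.W458.MF Pool.Agent.TH132.A Pool.Agent.W536.RR
  Pool.Agent.TH121.KT Pool.Agent.Y103.Hk Pool.Agent.NH33.Nw Pool.Agent.NH33.Sf
  Pool.Agent.Y103.Sh

variable {k : Type u} [Field k] {𝒱 : VarClass k} {ops : CycleOps 𝒱}
  {W : WeilCohomology.{u, v} ops} {p : ℕ} [Fact p.Prime] {Φ : FrobSystem W p}
  {ι : Qb →+* PadicAlgCl p}
  {r : ℕ} {X : Fin r → 𝒱.Obj} {b e : Fin r → ℕ} {E : Fin r → Type} [∀ i, Field (E i)]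
  [∀ i, NumberField (E i)] [∀ i, IsCMField (E i)]
  {α : ∀ i, E i} {Z U : 𝒱.Obj}

theorem tateTimesQ_gen [IsAlgClosed W.K] (hP : PairsAlg Φ X b e α) (he : ∀ i, 0 < e i)
    (hZ : IsGeneratedFrom Φ X b e α Z) (hsc : ∀ i, HasScalarCommutant (E i))
    (H : FamOK ι α ∅) :
    TateTimesQ Φ (fun d ν => IsNarrow ι α (fun i => e i * Φ.e (X i)) d ν) Z :=
  tateTimesQ_of hP he hZ fun hW hd hw hν hν0 hrel =>
    balanced_narrow_closed H hsc (fun i => Nat.mul_pos (he i) (Φ.e_pos _)) hW hd hw hν hν0 hrel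

/-- **The conclusion.** -/
theorem main_narrow [IsAlgClosed W.K] (hP : PairsAlg Φ X b e α) (he : ∀ i, 0 < e i)
    (hZ : IsGeneratedFrom Φ X b e α Z) (hsc : ∀ i, HasScalarCommutant (E i))
    (H : FamOK ι α ∅) (hns : ∀ i, ∃ σ : E i →+* Qb, ‖ι (σ (α i))‖ ≠ 1) :
    ∀ U : 𝒱.Obj, HasNarrowEigenvalues Φ ι X e α U →
      (HasCycle W Z 0 → (HomIsNum W (Z.prod U) ↔ HomIsNum W U)) ∧ ∀ c,
      (TateIn Φ (Z.prod U) c ↔ ∀ i ≤ c, HasCycle W Z i → TateIn Φ U (c - i)) ∧
      (SemisimpleTateIn Φ (Z.prod U) c ↔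
        ∀ i ≤ c, HasCycle W Z i → SemisimpleTateIn Φ U (c - i)) := by
  intro U hU
  have hp := (Fact.out : p.Prime).one_lt
  have hTT := tateTimesQ_gen hP he hZ hsc H
  have h1 : ∀ d : ℕ, IsNarrow ι α (fun i => e i * Φ.e (X i)) d (1 : W.K) := fun d =>
    narrow_one (fun i => Nat.mul_pos (he i) (Φ.e_pos _)) hns H.unitary d
  have hpow : ∀ (d : ℕ) (ν : W.K) (n : ℕ), 0 < n →
      IsNarrow ι α (fun i => e i * Φ.e (X i)) d ν →
      IsNarrow ι α (fun i => e i * Φ.e (X i)) (d * n) (ν ^ n) := fun d ν n hn h =>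
    narrow_pow hn h
  refine ⟨fun h0 => ?_, fun c => ?_⟩
  · exact homEqNum_prod_iff (fun z hz => tens_of_tateTimesQ hp hTT h1 hpow hU hz)
      (homEqNum_of_tateTimesQ hp hTT h1) (one_ne_of_hasCycle h0)
  simp only [hasCycle_iff]
  have key : ∀ b, Y138.TU.TateK Φ (Z.prod U) b c ↔
      ∀ i ≤ c, (∃ x, Z.IsCyc i x ∧ ¬ HomEq W x 0) → Y138.TU.TateK Φ U b (c - i) := fun b =>
    tateK_prod_iffQ hp hTT h1 hpow hU
  refine ⟨?_, ?_⟩
  · rw [Y138.TU.tateIn_iff, key 1]
    simp only [Y138.TU.tateIn_iff]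
  · simp only [Y138.TU.semisimple_iff, key]
    constructor
    · intro h i hi hx a
      exact h a i hi hx
    · intro h a i hi hx
      exact h i hi hx a

/-- **The Tate conjecture for products with narrow varieties.** -/
theorem final_narrow [IsAlgClosed W.K] (hE : ∀ i, IsStrongField (E i))
    (hne : ∀ i j, i ≠ j → galoisClosure (E i) ≠ galoisClosure (E j))
    (hu : ∀ i (φ : E i →+* ℂ), ‖φ (α i)‖ = 1)
    (hns : ∀ i, ∃ σ : E i →+* Qb, ‖ι (σ (α i))‖ ≠ 1)
    (he : ∀ i, 0 < e i) (hX : ∀ i, TateIn Φ ((X i).prod (X i)) (b i))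
    (hZ : IsGeneratedFrom Φ X b e α Z) :
    ∀ U : 𝒱.Obj, HasNarrowEigenvalues Φ ι X e α U →
      (HasCycle W Z 0 → (HomIsNum W (Z.prod U) ↔ HomIsNum W U)) ∧ ∀ c,
      (TateIn Φ (Z.prod U) c ↔ ∀ i ≤ c, HasCycle W Z i → TateIn Φ U (c - i)) ∧
      (SemisimpleTateIn Φ (Z.prod U) c ↔
        ∀ i ≤ c, HasCycle W Z i → SemisimpleTateIn Φ U (c - i)) := by
  have hsc : ∀ i, HasScalarCommutant (E i) := fun i => scalar_of_strong (hE i)
  have hirr : ∀ i, OddIrreducible (E i) := fun i => irreducible_of_scalar (hsc i)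
  refine main_narrow (pairs_of_tate hu he hX) he hZ hsc
    { unitary := hu
      free := fun i => free_of_irreducible (hirr i) (hu i) (hns i)
      stable := fun L hL => absurd hL (Set.notMem_empty L)
      fields := fun i L hL => absurd hL (Set.notMem_empty L)
      pair := fun i j hij => ?_ } hns
  rcases exists_notMem_closure (hne i j hij) with h | h
  · exact Or.inl (noInv_of_irreducible (hirr i) (stable_closure _) h)
  · exact Or.inr (noInv_of_irreducible (hirr j) (stable_closure _) h)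

end Pool.Agent.NH33.Ir
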