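import Pool.Agent.Y138.TU.Main

/-!
# Products with varieties whose Frobenius eigenvalues have a property which depends on the finite field
-/

set_option autoImplicit false
set_option linter.unusedSectionVars false

open CategoryTheory AlgebraicGeometry NumberField
open scoped TensorProduct

universe u v

namespace Pool.Agent.NH33.Nw

open Pool.Agent.H914 Pool.Agent.H914.VarClass Pool.Agent.H914.VarClass.Obj
  Pool.Agent.H914.WeilCohomology Pool.Agent.H281R3.HT Pool.Agent.W552 Pool.Agent.W534
  Pool.Agent.W458.RK Pool.Agent.W458.MF Pool.Agent.TH132.A Pool.Agent.TH121.KT Pool.Agent.H447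
  Pool.Agent.Y138.TU

variable {k : Type u} [Field k] {𝒱 : VarClass k} {ops : CycleOps 𝒱}
  {W : WeilCohomology.{u, v} ops} {X U : 𝒱.Obj} {p : ℕ} {Φ : FrobSystem W p}
  {PP : ℕ → W.K → Prop}

/-- The Tate classes on the products of `X` with all spaces on which the eigenvalues of the
Frobenius endomorphism have the property `PP` are combinations of products with algebraic classes
of `X`. -/
def TateTimesQ (Φ : FrobSystem W p) (PP : ℕ → W.K → Prop) (X : 𝒱.Obj) : Prop :=
  ∀ s : ℕ, 0 < s → ∀ (V : Type v) [AddCommGroup V] [Module W.K V] [Module.Finite W.K V]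
    (G : Module.End W.K V), (∀ ν, G.HasEigenvalue ν → PP (Φ.e X * s) ν) →
    ∀ (c : ℤ) (a : ℕ) (x : W.H X ⊗[W.K] V),
      Killed (TensorProduct.map (frob Φ X s) G) ((card Φ X s : W.K) ^ c) a x →
        x ∈ Submodule.span W.K {w | ∃ (i : ℕ) (y : W.H X) (v : V), y ∈ cycSub W X i ∧
          Killed G ((card Φ X s : W.K) ^ (c - i)) a v ∧ w = y ⊗ₜ v}

lemma PPQ_pow [IsAlgClosed W.K] {V : Type v} [AddCommGroup V] [Module W.K V]
    [Module.Finite W.K V] {G : Module.End W.K V} {d : ℕ} (hG : ∀ ν, G.HasEigenvalue ν → PP d ν)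
    (hpow : ∀ (d : ℕ) ν (n : ℕ), 0 < n → PP d ν → PP (d * n) (ν ^ n)) {n : ℕ} (hn : 0 < n)
    (ν : W.K) (hν : (G ^ n).HasEigenvalue ν) : PP (d * n) ν := by
  rw [Module.End.hasEigenvalue_iff_mem_spectrum, spectrum.map_pow_of_pos _ hn] at hν
  obtain ⟨β, hβ, rfl⟩ := hν
  exact hpow d β n hn (hG β (Module.End.hasEigenvalue_iff_mem_spectrum.2 hβ))

/-- The classes of cycles on `X × U` are combinations of products of classes of cycles on `X` and
classes on `U`. -/
theorem span_of_tateTimesQ [IsAlgClosed W.K] (hT : TateTimesQ Φ PP X)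
    (hpow : ∀ (d : ℕ) ν (n : ℕ), 0 < n → PP d ν → PP (d * n) (ν ^ n))
    (hU : ∀ ν, Module.End.HasEigenvalue (W.map (Φ.Fr U)).toLinearMap ν → PP (Φ.e U) ν) {c : ℕ}
    {z : (X.prod U).Cycles} (hz : (X.prod U).IsCyc c z) :
    W.cl _ z ∈ Submodule.span W.K {w | ∃ x y, AS W X x ∧ w = ext W x y} := by
  obtain ⟨a, b, ha, hb, hab, h1⟩ := frob_comm Φ (fst X U)
  obtain ⟨a', b', ha', hb', hab', h2⟩ := frob_comm Φ (snd X U)
  obtain ⟨s, hs, h3⟩ := Φ.cyc hz
  have h4 := frob_mul' Φ h3 (a * a')
  obtain ⟨x, hx⟩ := (W.kunneth X U).2 (W.cl _ z)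
  have hcomm : ∀ x : W.H X ⊗[W.K] W.H U,
      W.map (W534.iter (Φ.Fr (X.prod U)) (a * a' * s)) (kunnethMap (W.map (fst X U))
        (W.map (snd X U)) x) = kunnethMap (W.map (fst X U)) (W.map (snd X U))
          (TensorProduct.map (frob Φ X (b * (a' * s))) (frob Φ U (b' * (a * s))) x) := by
    intro x
    induction x using TensorProduct.induction_on with
    | zero => rw [map_zero, map_zero, map_zero, map_zero]
    | add x y hx hy => rw [map_add, map_add, hx, hy, map_add, map_add]
    | tmul x y =>
      change W.map _ (W.map (fst X U) x * W.map (snd X U) y) =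
        W.map (fst X U) (W.map (W534.iter (Φ.Fr X) (b * (a' * s))) x) *
          W.map (snd X U) (W.map (W534.iter (Φ.Fr U) (b' * (a * s))) y)
      rw [map_mul, ← h1, ← h2, show a * (a' * s) = a * a' * s by ring,
        show a' * (a * s) = a * a' * s by ring]
  have hG : ∀ ν, Module.End.HasEigenvalue (frob Φ U (b' * (a * s))) ν →
      PP (Φ.e X * (b * (a' * s))) ν := by
    have hlev : Φ.e X * (b * (a' * s)) = Φ.e U * (b' * (a * s)) := by
      calc Φ.e X * (b * (a' * s)) = (b * Φ.e X) * (a' * s) := by ring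
        _ = (a * Φ.e (X.prod U)) * (a' * s) := by rw [hab]
        _ = (a' * Φ.e (X.prod U)) * (a * s) := by ring
        _ = _ := by rw [hab']; ring
    rw [frob_pow_eq', hlev]
    exact PPQ_pow hU hpow (Nat.mul_pos hb' (Nat.mul_pos ha hs))
  have h6 : TensorProduct.map (frob Φ X (b * (a' * s))) (frob Φ U (b' * (a * s))) x =
      ((card Φ X (b * (a' * s)) : W.K)) ^ (c : ℤ) • x := by
    apply (W.kunneth X U).1
    rw [← hcomm, hx, h4, map_smul, hx, zpow_natCast, W534.card, Nat.cast_pow, ← pow_mul]
    congr 2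
    calc Φ.e (X.prod U) * (a * a' * s) * c = (a * Φ.e (X.prod U)) * (a' * s) * c := by ring
      _ = Φ.e X * (b * (a' * s)) * c := by rw [hab]; ring
  have h7 : Killed (TensorProduct.map (frob Φ X (b * (a' * s))) (frob Φ U (b' * (a * s))))
      ((card Φ X (b * (a' * s)) : W.K) ^ (c : ℤ)) 1 x := by
    refine killed_one_iff.2 ⟨1, one_pos, ?_⟩
    rw [pow_one, pow_one]
    exact h6
  have h8 := hT (b * (a' * s)) (Nat.mul_pos hb (Nat.mul_pos ha' hs)) (W.H U)
    (frob Φ U (b' * (a * s))) hG (c : ℤ) 1 x h7
  rw [← hx]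
  clear hx h7 h6
  induction h8 using Submodule.span_induction with
  | mem w hw =>
    obtain ⟨i, y, v, hy, -, rfl⟩ := hw
    rw [cycSub] at hy
    induction hy using Submodule.span_induction with
    | mem y hy =>
      obtain ⟨z', hz', rfl⟩ := hy
      exact Submodule.subset_span ⟨_, v, AS.of ⟨z', hz', rfl⟩, rfl⟩
    | zero => rw [TensorProduct.zero_tmul, map_zero]; exact Submodule.zero_mem _
    | add x y _ _ hx hy => rw [TensorProduct.add_tmul, map_add]; exact Submodule.add_mem _ hx hy
    | smul c x _ hx =>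
      rw [← TensorProduct.smul_tmul', map_smul]; exact Submodule.smul_mem _ _ hx
  | zero => rw [map_zero]; exact Submodule.zero_mem _
  | add x y _ _ hx hy => rw [map_add]; exact Submodule.add_mem _ hx hy
  | smul c x _ hx => rw [map_smul]; exact Submodule.smul_mem _ _ hx

/-- The generalised eigenvectors of the Frobenius endomorphism are algebraic. -/
lemma gen_algQ (hp : 1 < p) (hT : TateTimesQ Φ PP X) (h1PP : ∀ d, PP d 1) {s : ℕ} (hs : 0 < s)
    {c a : ℕ} {y : W.H X}
    (hy : ((frob Φ X s - ((card Φ X s : W.K) ^ c) • (1 : Module.End W.K (W.H X))) ^ a)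
      y = 0) : y ∈ cycSub W X c := by
  have hQ : (card Φ X s : W.K) ≠ 0 := card_ne Φ s
  have hone : ∀ ν, Module.End.HasEigenvalue (1 : Module.End W.K W.K) ν →
      PP (Φ.e X * s) ν := by
    intro ν hν
    obtain ⟨v, hv, hv0⟩ := hν.exists_hasEigenvector
    have h1 : (1 : Module.End W.K W.K) v = ν • v := Module.End.mem_eigenspace_iff.1 hv
    have h2 : ν = 1 := by
      rw [Module.End.one_apply, smul_eq_mul] at h1
      have h3 : (ν - 1) * v = 0 := by rw [sub_mul, one_mul, ← h1, sub_self]
      rcases mul_eq_zero.1 h3 with h4 | h4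
      · exact sub_eq_zero.1 h4
      · exact absurd h4 hv0
    rw [h2]
    exact h1PP _
  have h1 := hT s hs W.K (1 : Module.End W.K W.K) hone (c : ℤ) a
    (y ⊗ₜ[W.K] (1 : W.K))
  have h2 : Killed (TensorProduct.map (frob Φ X s) (1 : Module.End W.K W.K))
      ((card Φ X s : W.K) ^ (c : ℤ)) a (y ⊗ₜ[W.K] (1 : W.K)) := by
    refine ⟨1, one_pos, ?_⟩
    rw [pow_one, pow_one, zpow_natCast]
    have h3 : ∀ (a : ℕ) (y : W.H X), (((TensorProduct.map (frob Φ X s) (1 : Module.End W.K W.K) :
        Module.End W.K (W.H X ⊗[W.K] W.K)) - ((card Φ X s : W.K) ^ c) • 1) ^ a)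
          (y ⊗ₜ[W.K] (1 : W.K)) =
        (((frob Φ X s - ((card Φ X s : W.K) ^ c) • (1 : Module.End W.K (W.H X))) ^ a) y) ⊗ₜ
          (1 : W.K) := by
      intro a
      induction a with
      | zero => intro y; rfl
      | succ a ih =>
        intro y
        rw [pow_succ, Module.End.mul_apply, pow_succ, Module.End.mul_apply, ← ih]
        congr 1
        rw [LinearMap.sub_apply, LinearMap.smul_apply, Module.End.one_apply,
          TensorProduct.map_tmul, LinearMap.sub_apply, LinearMap.smul_apply,
          Module.End.one_apply, Module.End.one_apply, TensorProduct.sub_tmul,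
          TensorProduct.smul_tmul']
    rw [h3, hy, TensorProduct.zero_tmul]
  have h4 := h1 h2
  have h5 : ∀ x ∈ Submodule.span W.K {w : W.H X ⊗[W.K] W.K | ∃ (i : ℕ) (y : W.H X) (v : W.K),
      y ∈ cycSub W X i ∧
      Killed (1 : Module.End W.K W.K) ((card Φ X s : W.K) ^ ((c : ℤ) - i)) a v ∧ w = y ⊗ₜ v},
      TensorProduct.rid W.K (W.H X) x ∈ cycSub W X c := by
    intro x hx
    induction hx using Submodule.span_induction with
    | mem w hw =>
      obtain ⟨i, y, v, hz, ⟨M, hM, hv⟩, rfl⟩ := hw
      rw [TensorProduct.rid_tmul]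
      by_cases hv0 : v = 0
      · rw [hv0, zero_smul]; exact Submodule.zero_mem _
      have h6 : ∀ (a : ℕ), ((((1 : Module.End W.K W.K) ^ M -
          (((card Φ X s : W.K) ^ ((c : ℤ) - i)) ^ M) • (1 : Module.End W.K W.K)) ^ a) v) =
          (1 - ((card Φ X s : W.K) ^ ((c : ℤ) - i)) ^ M) ^ a * v := by
        intro a
        induction a with
        | zero => simp
        | succ a ih =>
          rw [pow_succ', Module.End.mul_apply, ih, one_pow, LinearMap.sub_apply,
            Module.End.one_apply, LinearMap.smul_apply, Module.End.one_apply, smul_eq_mul]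
          ring
      rw [h6] at hv
      have h7 : ((card Φ X s : W.K) ^ ((c : ℤ) - i)) ^ M = 1 := by
        rcases mul_eq_zero.1 hv with h8 | h8
        · have h9 : a ≠ 0 := by
            rintro rfl
            rw [pow_zero] at h8
            exact one_ne_zero h8
          exact (sub_eq_zero.1 ((pow_eq_zero_iff h9).1 h8)).symm
        · exact absurd h8 hv0
      have h8 : c = i := by
        have h9 : 1 < card Φ X s := Nat.one_lt_pow (Nat.mul_pos (Φ.e_pos X) hs).ne' hp
        rw [← zpow_natCast, ← zpow_mul] at h7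
        have h10 : ((card Φ X s : ℚ) ^ (((c : ℤ) - i) * M)) = 1 := by
          have : (((card Φ X s : ℚ) ^ (((c : ℤ) - i) * M) : ℚ) : W.K) = ((1 : ℚ) : W.K) := by
            push_cast
            exact h7
          exact_mod_cast this
        have h11 : (1 : ℚ) < card Φ X s := by exact_mod_cast h9
        have h12 := (zpow_eq_one_iff_right₀ (zero_lt_one.trans h11).le h11.ne').1 h10
        rcases mul_eq_zero.1 h12 with h13 | h13
        · omega
        · omega
      rw [h8]
      exact Submodule.smul_mem _ _ hz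
    | zero => rw [map_zero]; exact Submodule.zero_mem _
    | add x y _ _ hx hy => rw [map_add]; exact Submodule.add_mem _ hx hy
    | smul c x _ hx => rw [map_smul]; exact Submodule.smul_mem _ _ hx
  have h6 := h5 _ h4
  rwa [TensorProduct.rid_tmul, one_smul] at h6

/-- **Homological and numerical equivalence coincide.** -/
theorem homEqNum_of_tateTimesQ [IsAlgClosed W.K] (hp : 1 < p) (hT : TateTimesQ Φ PP X)
    (h1PP : ∀ d, PP d 1) : HomEqNum W X := by
  intro j hj z hz hnum
  obtain ⟨s, hs, h1⟩ := Φ.cyc hz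
  have hQ : (card Φ X s : W.K) ≠ 0 := card_ne Φ s
  have h1' : frob Φ X s (W.cl X z) = (card Φ X s : W.K) ^ j • W.cl X z := by
    rw [frob_apply, h1, W534.card, Nat.cast_pow, ← pow_mul]
  have hadj : ∀ b : W.H X, W.tr X (W.cl X z * frob Φ X s b) =
      (card Φ X s : W.K) ^ (X.dim - j) * W.tr X (W.cl X z * b) := by
    intro b
    have h2 := tr_iter Φ s (W.cl X z * b)
    rw [map_mul] at h2
    change W.tr X (frob Φ X s (W.cl X z) * frob Φ X s b) = _ at h2
    rw [h1', smul_mul_assoc, map_smul, smul_eq_mul] at h2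
    have h3 : ((p : W.K) ^ (Φ.e X * s * X.dim)) =
        (card Φ X s : W.K) ^ j * (card Φ X s : W.K) ^ (X.dim - j) := by
      rw [← pow_add, show j + (X.dim - j) = X.dim by omega, W534.card, Nat.cast_pow, ← pow_mul]
    rw [h3, mul_assoc] at h2
    exact mul_left_cancel₀ (pow_ne_zero _ hQ) h2
  apply W.nondeg
  intro b
  have hb := span_gen_top (frob Φ X s) b
  induction hb using Submodule.span_induction with
  | mem b hb =>
    obtain ⟨μ, hμ⟩ := hb
    rw [Module.End.mem_maxGenEigenspace] at hμ
    obtain ⟨a, ha⟩ := hμ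
    have h2 : ∀ (a : ℕ) (b : W.H X), W.tr X (W.cl X z *
        (((frob Φ X s - μ • (1 : Module.End W.K (W.H X))) ^ a) b)) =
          ((card Φ X s : W.K) ^ (X.dim - j) - μ) ^ a * W.tr X (W.cl X z * b) := by
      intro a
      induction a with
      | zero => intro b; simp
      | succ a ih =>
        intro b
        rw [pow_succ, Module.End.mul_apply, ih, LinearMap.sub_apply, LinearMap.smul_apply,
          Module.End.one_apply, mul_sub, map_sub, hadj, mul_smul_comm, map_smul, smul_eq_mul]
        ring
    have h3 := h2 a b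
    rw [ha, mul_zero, map_zero] at h3
    rcases mul_eq_zero.1 h3.symm with h4 | h4
    · have h5 : (card Φ X s : W.K) ^ (X.dim - j) = μ := by
        rcases Nat.eq_zero_or_pos a with h0 | h0
        · rw [h0, pow_zero] at h4
          exact absurd h4 one_ne_zero
        · exact sub_eq_zero.1 ((pow_eq_zero_iff h0.ne').1 h4)
      rw [← h5] at ha
      have h6 := gen_algQ hp hT h1PP hs ha
      clear ha h2 h3
      rw [cycSub] at h6
      induction h6 using Submodule.span_induction with
      | mem w hw =>
        obtain ⟨z', hz', rfl⟩ := hw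
        have h7 := ops.mul_mem hz hz'
        rw [show j + (X.dim - j) = X.dim by omega] at h7
        rw [← W.cl_mul, W.tr_cl h7, hnum z' hz', Rat.cast_zero]
      | zero => rw [mul_zero, map_zero]
      | add x y _ _ hx hy => rw [mul_add, map_add, hx, hy, add_zero]
      | smul c x _ hx => rw [mul_smul_comm, map_smul, hx, smul_zero]
    · exact h4
  | zero => rw [mul_zero, map_zero]
  | add x y _ _ hx hy => rw [mul_add, map_add, hx, hy, add_zero]
  | smul c x _ hx => rw [mul_smul_comm, map_smul, hx, smul_zero]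

/-- The cycles on the product with a variety whose eigenvalues have the property split. -/
theorem tens_of_tateTimesQ [IsAlgClosed W.K] (hp : 1 < p) (hT : TateTimesQ Φ PP X)
    (h1PP : ∀ d, PP d 1) (hpow : ∀ (d : ℕ) ν (n : ℕ), 0 < n → PP d ν → PP (d * n) (ν ^ n))
    (hU : ∀ ν, Module.End.HasEigenvalue (W.map (Φ.Fr U)).toLinearMap ν → PP (Φ.e U) ν)
    {z : W.H (X.prod U)} (hz : AS W (X.prod U) z) : z ∈ tens W X U := by
  refine mem_tens (homEqNum_of_tateTimesQ hp hT h1PP) hz ?_
  refine AS.ind (p := fun z => z ∈ Submodule.span W.K {w | ∃ x y, AS W X x ∧ w = ext W x y})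
    ?_ (fun x y hx hy => Submodule.add_mem _ hx hy) hz
  rintro c _ ⟨z, hz, rfl⟩
  exact span_of_tateTimesQ hT hpow hU hz

section prodTU

variable {Z : 𝒱.Obj}

/-- **The Tate conjecture for `Z × U`**, if the Tate classes on the products of `Z` split. -/
theorem tateK_prod_iffQ [IsAlgClosed W.K] (hp : 1 < p) (hT : TateTimesQ Φ PP Z) (h1PP : ∀ d, PP d 1)
    (hpow : ∀ (d : ℕ) ν (n : ℕ), 0 < n → PP d ν → PP (d * n) (ν ^ n))
    (hU : ∀ ν, Module.End.HasEigenvalue (W.map (Φ.Fr U)).toLinearMap ν → PP (Φ.e U) ν) {a c : ℕ} :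
    TateK Φ (Z.prod U) a c ↔
      ∀ i ≤ c, (∃ x, Z.IsCyc i x ∧ ¬ HomEq W x 0) → TateK Φ U a (c - i) := by
  obtain ⟨A, B, C, hA, hB, hC, hAB, hAC, hcomm⟩ := exists_comm Φ Z U
  have hcardB : ∀ t, card Φ (Z.prod U) (A * t) = card Φ Z (B * t) := by
    intro t
    rw [W534.card, W534.card]
    congr 1
    calc Φ.e (Z.prod U) * (A * t) = (A * Φ.e (Z.prod U)) * t := by ring
      _ = _ := by rw [hAB]; ring
  have hcardC : ∀ t, card Φ (Z.prod U) (A * t) = card Φ U (C * t) := by
    intro t
    rw [W534.card, W534.card]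
    congr 1
    calc Φ.e (Z.prod U) * (A * t) = (A * Φ.e (Z.prod U)) * t := by ring
      _ = _ := by rw [hAC]; ring
  set E := kunnethMap (W.map (fst Z U)) (W.map (snd Z U)) with hE
  have hEinj : Function.Injective E := (W.kunneth Z U).1
  constructor
  · rintro h i hi ⟨x₀, hx₀, hne⟩ s hs u hu hk
    rw [HomEq, map_zero] at hne
    have hD := homEqNum_of_tateTimesQ hp hT h1PP
    obtain ⟨-, x', hx', htr⟩ := exists_partner hD ⟨x₀, hx₀, rfl⟩ hne
    have hcx : W.cl Z x₀ ∈ cycSub W Z i := Submodule.subset_span ⟨x₀, hx₀, rfl⟩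
    -- the product is killed
    have hgr : ext W (W.cl Z x₀) u ∈ W.gr (Z.prod U) (2 * c) := by
      have h1 := W.mul_mem (W.map_mem (fst Z U) (W.cl_mem hx₀)) (W.map_mem (snd Z U) hu)
      rwa [show 2 * i + 2 * (c - i) = 2 * c by omega] at h1
    have hk1 : Killed (frob Φ U (C * s)) ((card Φ U (C * s) : W.K) ^ (c - i)) a u := by
      rw [mul_comm C s]
      exact (killed_frob_mul hC).2 hk
    obtain ⟨M, hM, hkM⟩ := hk1
    obtain ⟨N, hN, hyN⟩ := killed_one_iff.1 (cyc_killed Φ (s := B * s) hcx)
    have hyMN : (frob Φ Z (B * s) ^ (N * M)) (W.cl Z x₀) =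
        ((card Φ Z (B * s) : W.K) ^ i) ^ (N * M) • W.cl Z x₀ := by
      have h1 : ((frob Φ Z (B * s) ^ N - (((card Φ Z (B * s) : W.K) ^ i) ^ N) •
          (1 : Module.End W.K (W.H Z))) ^ 1) (W.cl Z x₀) = 0 := by
        rw [pow_one, LinearMap.sub_apply, hyN, LinearMap.smul_apply, Module.End.one_apply,
          sub_self]
      have h2 := killed_mul h1 M
      rwa [pow_one, LinearMap.sub_apply, LinearMap.smul_apply, Module.End.one_apply,
        sub_eq_zero] at h2
    have h3 : Killed (TensorProduct.map (frob Φ Z (B * s)) (frob Φ U (C * s)))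
        ((card Φ Z (B * s) : W.K) ^ c) a (W.cl Z x₀ ⊗ₜ[W.K] u) := by
      refine ⟨N * M, Nat.mul_pos hN hM, ?_⟩
      have h4 := killed_tmul (F := frob Φ Z (B * s)) (G := frob Φ U (C * s))
        (α := (card Φ Z (B * s) : W.K) ^ i) (β := (card Φ Z (B * s) : W.K) ^ (c - i)) hyMN a u
      rw [← pow_add, Nat.add_sub_cancel' hi] at h4
      rw [h4]
      have h5 := killed_mul hkM N
      rw [← hcardC s, hcardB s, mul_comm M N] at h5
      rw [h5, TensorProduct.tmul_zero, smul_zero]
    have h4 : Killed (frob Φ (Z.prod U) (A * s)) ((card Φ (Z.prod U) (A * s) : W.K) ^ c) a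
        (ext W (W.cl Z x₀) u) := by
      rw [hcardB s]
      exact killed_comm (f := E) (x := W.cl Z x₀ ⊗ₜ[W.K] u) (hcomm s) h3
    have h5 := h (A * s) (Nat.mul_pos hA hs) _ hgr h4
    -- the coefficient
    have h6 : coef W x' (ext W (W.cl Z x₀) u) = W.tr Z (W.cl Z x₀ * x') • u := by
      rw [coef, ext, mul_assoc, ← ((AS.of hx').map (fst Z U)).comm (W.map (snd Z U) u),
        ← mul_assoc, ← map_mul, W.push_snd]
    have h7 : ∀ z ∈ spanCycles W (Z.prod U) c, coef W x' z ∈ spanCycles W U (c - i : ℕ) := by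
      intro z hz
      induction hz using Submodule.span_induction with
      | mem z hz =>
        obtain ⟨j, hj, z, hz, rfl⟩ := hz
        obtain rfl : j = c := by exact_mod_cast hj
        have hdim := (Z.dim_prod U)
        have hxd : i ≤ Z.dim := by
          by_contra hlt
          apply hne
          have h1 := W.cl_mem hx₀
          rw [W.gr_eq_bot Z _ (by omega)] at h1
          exact (Submodule.mem_bot _).1 h1
        have h8 : coef W x' (W.cl _ z) ∈ algClasses W U (j - i) :=
          alg_push (snd Z U) (alg_mul ⟨z, hz, rfl⟩ (alg_map (fst Z U) hx'))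
            (by rw [dim_prod]; omega)
        obtain ⟨w, hw, hw'⟩ := h8
        exact Submodule.subset_span ⟨_, rfl, w, hw, hw'⟩
      | zero => rw [coef, zero_mul, map_zero]; exact Submodule.zero_mem _
      | add x y _ _ hx hy =>
        rw [coef, add_mul, map_add]; exact Submodule.add_mem _ hx hy
      | smul r x _ hx =>
        rw [coef, smul_mul_assoc, map_smul]; exact Submodule.smul_mem _ _ hx
    have h8 := h7 _ h5
    rw [h6] at h8
    exact (Submodule.smul_mem_iff _ htr).1 h8
  · intro h s hs w hw hk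
    rw [← cycSub_eq]
    obtain ⟨x, hx⟩ := (W.kunneth Z U).2 w
    have hk1 : Killed (frob Φ (Z.prod U) (A * s)) ((card Φ (Z.prod U) (A * s) : W.K) ^ c) a
        (E x) := by
      rw [mul_comm A s, hE, hx]
      exact (killed_frob_mul hA).2 hk
    rw [hcardB s, killed_comm_iff E hEinj (hcomm s), ← zpow_natCast] at hk1
    have hG : ∀ ν, Module.End.HasEigenvalue (frob Φ U (C * s)) ν →
        PP (Φ.e Z * (B * s)) ν := by
      have hlev : Φ.e Z * (B * s) = Φ.e U * (C * s) := by
        calc Φ.e Z * (B * s) = (B * Φ.e Z) * s := by ring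
          _ = (A * Φ.e (Z.prod U)) * s := by rw [hAB]
          _ = _ := by rw [hAC]; ring
      rw [frob_pow_eq', hlev]
      exact PPQ_pow hU hpow (Nat.mul_pos hC hs)
    have h1 := hT (B * s) (Nat.mul_pos hB hs) (W.H U) (frob Φ U (C * s)) hG c a x hk1
    -- projection to the degree `2 c`
    rw [← proj_same (W.isInternal (Z.prod U)) hw, ← hx, ← hE]
    clear hk1 hk hx hw
    induction h1 using Submodule.span_induction with
    | mem t ht =>
      obtain ⟨i, y, v, hy, hv, rfl⟩ := ht
      change proj (W.isInternal (Z.prod U)) (2 * c) (W.map (fst Z U) y * W.map (snd Z U) v) ∈ _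
      by_cases hic : i ≤ c
      · have h2 : proj (W.isInternal (Z.prod U)) (2 * c)
            (W.map (fst Z U) y * W.map (snd Z U) v) =
            ext W y (proj (W.isInternal U) (2 * (c - i)) v) := by
          refine gr_induction (W.isInternal U) (p := fun v =>
            proj (W.isInternal (Z.prod U)) (2 * c) (W.map (fst Z U) y * W.map (snd Z U) v) =
              ext W y (proj (W.isInternal U) (2 * (c - i)) v)) ?_ ?_ v
          · intro l b hb
            have h3 := W.mul_mem (W.map_mem (fst Z U) (cycSub_gr hy)) (W.map_mem (snd Z U) hb)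
            by_cases hl : l = 2 * (c - i)
            · subst hl
              rw [show 2 * i + 2 * (c - i) = 2 * c by omega] at h3
              rw [proj_same _ h3, proj_same _ hb]
              rfl
            · rw [proj_ne _ h3 (by omega), proj_ne _ hb hl, ext, map_zero, mul_zero]
          · intro b b' hb hb'
            simp only [map_add, mul_add, hb, hb', ext]
        rw [h2]
        by_cases hy0 : y = 0
        · rw [hy0, ext, map_zero, zero_mul]
          exact Submodule.zero_mem _
        have h3 : ∃ x, Z.IsCyc i x ∧ ¬ HomEq W x 0 := by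
          by_contra hne
          push Not at hne
          apply hy0
          have h4 : cycSub W Z i ≤ ⊥ := by
            rw [cycSub, Submodule.span_le]
            rintro _ ⟨z, hz, rfl⟩
            have := hne z hz
            rw [HomEq, map_zero] at this
            exact (Submodule.mem_bot _).2 this
          exact (Submodule.mem_bot _).1 (h4 hy)
        have h4 := h i hic h3 (C * s) (Nat.mul_pos hC hs)
          (proj (W.isInternal U) (2 * (c - i)) v) (proj_mem _ _ _) (by
            have h5 : Killed (frob Φ U (C * s)) ((card Φ U (C * s) : W.K) ^ (c - i)) a v := by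
              rw [← hcardC, hcardB, ← zpow_natCast, Nat.cast_sub hic]
              exact hv
            exact killed_comm (f := proj (W.isInternal U) (2 * (c - i)))
              (fun x => (proj_map _ _ _).symm) h5)
        rw [← cycSub_eq] at h4
        have h5 := cycSub_ext hy h4
        rwa [Nat.add_sub_cancel' hic] at h5
      · have h2 : proj (W.isInternal (Z.prod U)) (2 * c)
            (W.map (fst Z U) y * W.map (snd Z U) v) = 0 := by
          refine gr_induction (W.isInternal U) (p := fun v =>
            proj (W.isInternal (Z.prod U)) (2 * c) (W.map (fst Z U) y * W.map (snd Z U) v) =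
              0) ?_ ?_ v
          · intro l b hb
            have h3 := W.mul_mem (W.map_mem (fst Z U) (cycSub_gr hy)) (W.map_mem (snd Z U) hb)
            exact proj_ne _ h3 (by omega)
          · intro b b' hb hb'
            simp only [map_add, mul_add, hb, hb', add_zero]
        rw [h2]
        exact Submodule.zero_mem _
    | zero => rw [map_zero, map_zero]; exact Submodule.zero_mem _
    | add x y _ _ hx hy => rw [map_add, map_add]; exact Submodule.add_mem _ hx hy
    | smul r x _ hx => rw [map_smul, map_smul]; exact Submodule.smul_mem _ _ hx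

end prodTU

end Pool.Agent.NH33.Nw
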